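import Mathlib
import Pool.Agent.H380.AG.Stm
import Pool.Graph.R_seed8.W376.AG.Sum

set_option autoImplicit false

open MeasureTheory Metric Set Filter Topology
open scoped ENNReal RealInnerProductSpace

namespace Pool.Agent.H972.AG

open Pool.Agent.W778.AG Pool.Agent.H380.AG

theorem Pg_cont (n k : ℕ) : Continuous (Pg n k) ∧ Continuous (Pg n (k + 1)) := by
  induction k with
  | zero =>
    refine ⟨?_, ?_⟩
    · have : Pg n 0 = fun _ => 1 := by funext t; rfl
      rw [this]; exact continuous_const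
    · have : Pg n (0 + 1) = fun t => t := by funext t; rfl
      rw [this]; exact continuous_id
  | succ k ih =>
    refine ⟨ih.2, ?_⟩
    have : Pg n (k + 1 + 1) = fun t =>
        ((2 * (k : ℝ) + n) * t * Pg n (k + 1) t - ((k : ℝ) + 1) * Pg n k t) / ((k : ℝ) + n - 1) := by
      funext t; rfl
    rw [this]
    have h1 := ih.1
    have h2 := ih.2
    fun_prop

theorem Pg_at_one (m k : ℕ) : Pg (m + 3) k 1 = 1 ∧ Pg (m + 3) (k + 1) 1 = 1 := by
  induction k with
  | zero => exact ⟨rfl, rfl⟩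
  | succ k ih =>
    refine ⟨ih.2, ?_⟩
    have : Pg (m + 3) (k + 1 + 1) 1 = ((2 * (k : ℝ) + ((m + 3 : ℕ) : ℝ)) * 1 * Pg (m + 3) (k + 1) 1
      - ((k : ℝ) + 1) * Pg (m + 3) k 1) / ((k : ℝ) + ((m + 3 : ℕ) : ℝ) - 1) := rfl
    rw [this, ih.1, ih.2]
    push_cast
    have h : (k : ℝ) + (m + 3) - 1 ≠ 0 := by
      have : (0 : ℝ) < (k : ℝ) + (m + 3) - 1 := by
        have h1 : (0 : ℝ) ≤ k := Nat.cast_nonneg k
        have h2 : (0 : ℝ) ≤ m := Nat.cast_nonneg m
        linarith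
      exact this.ne'
    rw [div_eq_one_iff_eq h]
    ring

theorem dk_nonneg (m k : ℕ) : 0 ≤ dk (m + 3) k := by
  unfold dk
  have h1 : (0 : ℝ) ≤ k := Nat.cast_nonneg k
  have h2 : (0 : ℝ) ≤ m := Nat.cast_nonneg m
  push_cast
  apply mul_nonneg
  · apply div_nonneg <;> linarith
  · positivity

theorem summable_dk (h2 : S_SUM) (m : ℕ) {r : ℝ} (hr0 : 0 ≤ r) (hr : r < 1) :
    Summable fun k : ℕ => r ^ k * dk (m + 3) k := by
  have h := (h2 (m + 3) (by omega) r hr0 hr 1 (by simp)).summable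
  refine h.congr fun k => ?_
  rw [(Pg_at_one m k).1, mul_one]

theorem pk_mono (n : ℕ) {r t t' : ℝ} (hr0 : 0 ≤ r) (hr : r < 1) (h : t ≤ t') (h' : t' ≤ 1) :
    pk n r t ≤ pk n r t' := by
  unfold pk
  have h1 : 0 < 1 - 2 * r * t' + r ^ 2 := by nlinarith [mul_nonneg hr0 (sub_nonneg.2 h')]
  have h2 : 1 - 2 * r * t' + r ^ 2 ≤ 1 - 2 * r * t + r ^ 2 := by
    nlinarith [mul_nonneg hr0 (sub_nonneg.2 h)]
  have h3 : 0 < Real.sqrt (1 - 2 * r * t' + r ^ 2) := Real.sqrt_pos.2 h1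
  have h4 := Real.sqrt_le_sqrt h2
  apply div_le_div_of_nonneg_left
  · nlinarith
  · positivity
  · exact pow_le_pow_left₀ h3.le h4 n

/-- interchange of sum and integral -/
theorem sum_int (h2 : S_SUM) (hB : S_BD) (m : ℕ) {r : ℝ} (hr0 : 0 ≤ r) (hr : r < 1)
    (ρ : Measure (En (m + 3))) (hρ : Sph ρ) (x : En (m + 3)) (hx : ‖x‖ = 1) :
    HasSum (fun k : ℕ => ∫ w, r ^ k * dk (m + 3) k * Pg (m + 3) k ⟪w, x⟫ ∂ρ)
      (∫ w, pk (m + 3) r ⟪w, x⟫ ∂ρ) := by
  obtain ⟨hp, hs⟩ := hρ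
  have hae : ∀ᵐ w ∂ρ, ‖w‖ = 1 := by
    rw [ae_iff]
    refine measure_mono_null (fun w hw => ?_) hs
    simpa using hw
  have habs : ∀ᵐ w ∂ρ, |⟪w, x⟫| ≤ 1 := by
    filter_upwards [hae] with w hw
    have := abs_real_inner_le_norm w x
    rwa [hw, hx, one_mul] at this
  have hcont : ∀ k, Continuous fun w : En (m + 3) => r ^ k * dk (m + 3) k * Pg (m + 3) k ⟪w, x⟫ := by
    intro k
    have h1 := (Pg_cont (m + 3) k).1
    exact continuous_const.mul (h1.comp (continuous_id.inner continuous_const))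
  have hbd : ∀ k, ∀ᵐ w ∂ρ, ‖r ^ k * dk (m + 3) k * Pg (m + 3) k ⟪w, x⟫‖ ≤ r ^ k * dk (m + 3) k := by
    intro k
    filter_upwards [habs] with w hw
    have h3 := Pool.Agent.W376.AG.Pg_le hB m k hw
    have h4 : 0 ≤ r ^ k * dk (m + 3) k := mul_nonneg (pow_nonneg hr0 k) (dk_nonneg m k)
    rw [norm_mul, Real.norm_eq_abs, Real.norm_eq_abs, abs_of_nonneg h4]
    nlinarith
  have hint : ∀ k, Integrable (fun w => r ^ k * dk (m + 3) k * Pg (m + 3) k ⟪w, x⟫) ρ := fun k =>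
    Integrable.mono' (integrable_const (r ^ k * dk (m + 3) k)) (hcont k).aestronglyMeasurable (hbd k)
  have hsum : Summable fun k => ∫ w, ‖r ^ k * dk (m + 3) k * Pg (m + 3) k ⟪w, x⟫‖ ∂ρ := by
    refine Summable.of_nonneg_of_le (fun k => integral_nonneg fun w => norm_nonneg _) (fun k => ?_)
      (summable_dk h2 m hr0 hr)
    refine (integral_mono_ae (hint k).norm (integrable_const _) (hbd k)).trans (le_of_eq ?_)
    simp
  have h := hasSum_integral_of_summable_integral_norm hint hsum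
  have he : ∫ w, ∑' k, r ^ k * dk (m + 3) k * Pg (m + 3) k ⟪w, x⟫ ∂ρ =
      ∫ w, pk (m + 3) r ⟪w, x⟫ ∂ρ := by
    apply integral_congr_ae
    filter_upwards [habs] with w hw
    exact (h2 (m + 3) (by omega) r hr0 hr _ hw).tsum_eq
  rwa [he] at h

theorem t_CONC (h1 : S_AVG) (h2 : S_SUM) (hB : S_BD) : S_CONC := by
  intro n hn r hr0 hr α θ hα0 hα hθ0 hθ
  obtain ⟨m, rfl⟩ : ∃ m, n = m + 3 := ⟨n - 3, by omega⟩
  set v : En (m + 3) := EuclideanSpace.single 0 (1 : ℝ) with hv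
  set e : En (m + 3) := EuclideanSpace.single 1 (1 : ℝ) with he
  have hiv : ∀ w : En (m + 3), ⟪v, w⟫ = w 0 := fun w => by
    rw [hv, EuclideanSpace.inner_single_left]; simp
  have hie : ∀ w : En (m + 3), ⟪e, w⟫ = w 1 := fun w => by
    rw [he, EuclideanSpace.inner_single_left]; simp
  have hvn : ‖v‖ = 1 := by rw [hv]; simp
  have hen : ‖e‖ = 1 := by rw [he]; simp
  have hve : ⟪v, e⟫ = 0 := by rw [hiv, he]; simp
  set x : En (m + 3) := Real.cos θ • v + Real.sin θ • e with hx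
  have hvx : ⟪v, x⟫ = Real.cos θ := by
    rw [hx, inner_add_right, inner_smul_right, inner_smul_right, hve, real_inner_self_eq_norm_sq,
      hvn]
    ring
  have hxn : ‖x‖ = 1 := by
    have h : ‖x‖ ^ 2 = 1 := by
      rw [hx, norm_add_sq_real, norm_smul, norm_smul, hvn, hen, real_inner_smul_left,
        real_inner_smul_right, hve, mul_one, mul_one, Real.norm_eq_abs, Real.norm_eq_abs, sq_abs,
        sq_abs]
      have := Real.sin_sq_add_cos_sq θ
      linarith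
    nlinarith [norm_nonneg x]
  obtain ⟨ρ, hρ, hρα, hk⟩ := h1 (m + 3) (by omega) v α hvn
  have hS := sum_int h2 hB m hr0 hr ρ hρ x hxn
  have hcongr : ∀ k, ∫ w, r ^ k * dk (m + 3) k * Pg (m + 3) k ⟪w, x⟫ ∂ρ =
      r ^ k * dk (m + 3) k * (Pg (m + 3) k (Real.cos α) * Pg (m + 3) k (Real.cos θ)) := by
    intro k
    rw [integral_const_mul, hk k x hxn, hvx]
  simp only [hcongr] at hS
  rw [hS.tsum_eq]
  obtain ⟨hp, hs⟩ := hρ
  have hc1 : Real.cos (θ - α) ≤ 1 := Real.cos_le_one _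
  have hae : ∀ᵐ w ∂ρ, pk (m + 3) r ⟪w, x⟫ ≤ pk (m + 3) r (Real.cos (θ - α)) := by
    have ha1 : ∀ᵐ w ∂ρ, ‖w‖ = 1 := by
      rw [ae_iff]
      refine measure_mono_null (fun w hw => ?_) hs
      simpa using hw
    have ha2 : ∀ᵐ w ∂ρ, ⟪v, w⟫ = Real.cos α := by
      rw [ae_iff]
      exact hρα
    filter_upwards [ha1, ha2] with w hw1 hw2
    apply pk_mono _ hr0 hr _ hc1
    have hsq : w 0 ^ 2 + w 1 ^ 2 ≤ 1 := by
      have h3 : ‖w‖ ^ 2 = ∑ i, w i ^ 2 := EuclideanSpace.real_norm_sq_eq w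
      rw [hw1, Fin.sum_univ_succ, Fin.sum_univ_succ] at h3
      have h4 : 0 ≤ ∑ i : Fin (m + 1), w i.succ.succ ^ 2 :=
        Finset.sum_nonneg fun i _ => sq_nonneg _
      have h5 : w (Fin.succ 0) = w 1 := rfl
      rw [h5] at h3
      linarith
    rw [hiv] at hw2
    have hw3 : w 1 ≤ Real.sin α := by
      have h3 := Real.sin_nonneg_of_nonneg_of_le_pi hα0 hα
      have h4 := Real.sin_sq_add_cos_sq α
      rw [hw2] at hsq
      nlinarith
    have h5 := Real.sin_nonneg_of_nonneg_of_le_pi hθ0 hθ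
    rw [real_inner_comm, hx, inner_add_left, real_inner_smul_left, real_inner_smul_left, hiv, hie,
      hw2, Real.cos_sub]
    nlinarith
  have hcontp : Integrable (fun w => pk (m + 3) r ⟪w, x⟫) ρ := by
    have hcont : Continuous fun w : En (m + 3) => pk (m + 3) r (max (-1) (min 1 ⟪w, x⟫)) := by
      unfold pk
      refine Continuous.div ?_ ?_ ?_
      · fun_prop
      · fun_prop
      · intro w
        have h3 : max (-1) (min 1 ⟪w, x⟫) ≤ (1 : ℝ) := by simp
        have h4 : 0 < 1 - 2 * r * max (-1) (min 1 ⟪w, x⟫) + r ^ 2 := by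
          nlinarith [mul_nonneg hr0 (sub_nonneg.2 h3)]
        positivity
    have habs : ∀ᵐ w ∂ρ, |⟪w, x⟫| ≤ 1 := by
      have ha1 : ∀ᵐ w ∂ρ, ‖w‖ = 1 := by
        rw [ae_iff]
        refine measure_mono_null (fun w hw => ?_) hs
        simpa using hw
      filter_upwards [ha1] with w hw
      have := abs_real_inner_le_norm w x
      rwa [hw, hxn, one_mul] at this
    refine Integrable.mono' (integrable_const (pk (m + 3) r 1))
      (hcont.aestronglyMeasurable.congr ?_) ?_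
    · filter_upwards [habs] with w hw
      rw [min_eq_right (abs_le.1 hw).2, max_eq_right (abs_le.1 hw).1]
    · filter_upwards [habs] with w hw
      have h3 : 0 ≤ pk (m + 3) r ⟪w, x⟫ := by
        unfold pk
        apply div_nonneg
        · nlinarith
        · positivity
      rw [Real.norm_eq_abs, abs_of_nonneg h3]
      exact pk_mono _ hr0 hr (abs_le.1 hw).2 le_rfl
  calc ∫ w, pk (m + 3) r ⟪w, x⟫ ∂ρ ≤ ∫ _w, pk (m + 3) r (Real.cos (θ - α)) ∂ρ :=
        integral_mono_ae hcontp (integrable_const _) hae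
    _ = pk (m + 3) r (Real.cos (θ - α)) := by simp
    _ = _ := rfl

end Pool.Agent.H972.AG
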